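import Pool.Agent.W622.ETC.Stm

set_option autoImplicit false
set_option linter.unusedSectionVars false

/-! RIG1 and RIG (relative rigid elements), parts of project ELT of helper622. -/

namespace Pool.Agent.W688.ELT

open Pool.Agent.W622.ETC Module

section
variable {V : Type} [AddCommGroup V] [Module (ZMod 2) V] [Finite V]

/-- the vectors killed by `X` -/
abbrev WW (X : DSub V) : Submodule (ZMod 2) V := X.dualCoannihilator

theorem mem_WW {X : DSub V} {w : V} : w ∈ WW X ↔ ∀ f ∈ X, f w = 0 :=
  Submodule.mem_dualCoannihilator w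

/-- rigid elements, relative to `X` -/
def Rig (A : Fam V) (X : DSub V) (a : V) : Prop :=
  a ∉ WW X ∧ ∀ y, (∀ ω ∈ A, ω a y = 0) → y ∈ WW X ∨ y + a ∈ WW X

theorem two_z : (2 : ZMod 2) = 0 := rfl

/-- members of `A` do not see `W` -/
theorem kill_r {A : Fam V} {X : DSub V} (hs : supp A ≤ X) {ω : Frm V} (hω : ω ∈ A) {w : V}
    (hw : w ∈ WW X) (b : V) : ω b w = 0 :=
  mem_WW.mp hw _ (supp_le.mp hs ω hω b)

theorem kill_l {A : Fam V} {X : DSub V} (hA : AltFam A) (hs : supp A ≤ X) {ω : Frm V}
    (hω : ω ∈ A) {w : V} (hw : w ∈ WW X) (b : V) : ω w b = 0 := by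
  rw [(hA ω hω).symm]
  exact kill_r hs hω hw b

theorem tr_r {A : Fam V} {X : DSub V} (hs : supp A ≤ X) {ω : Frm V} (hω : ω ∈ A) {u z : V}
    (hw : u + z ∈ WW X) (b : V) : ω b u = ω b z := by
  have h := kill_r hs hω hw b
  rw [map_add] at h
  exact add_eq_zero'.mp h

theorem step1 (hPL : S_PL) {A : Fam V} {X : DSub V} (hA : AltFam A) (hL : Linked A)
    (hs : supp A ≤ X) {x a y u : V} (hx : Rig A X x) (hy : ∀ ω ∈ A, ω a y = 0)
    (hu : ∀ ω ∈ A, ω (a + x) u = 0) :
    (∀ ω ∈ A, ω u y = ω u x) ∨ (∀ ω ∈ A, ω u y = ω y x) := by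
  have h0 : ∀ ω ∈ A, ω (u + y) a = ω x u := by
    intro ω hω
    have h1 := hy ω hω
    have h2 := hu ω hω
    have h3 := (hA ω hω).symm u a
    have h4 := (hA ω hω).symm y a
    simp only [map_add, LinearMap.add_apply] at h2 ⊢
    rw [h3, h4, h1, add_zero]
    exact add_eq_zero'.mp h2
  obtain ⟨z, hz1, hz2, hz3⟩ := hPL V A hA hL (u + y) x a u h0
  rcases hx.2 (u + z) hz2 with h | h
  · left
    intro ω hω
    have h1 := hz3 ω hω
    rw [← tr_r hs hω h (u + y + x)] at h1
    have h2 := (hA ω hω).symm y u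
    have h3 := (hA ω hω).symm x u
    have h4 := hA ω hω u
    simp only [map_add, LinearMap.add_apply] at h1
    rw [h4, zero_add, h2, h3] at h1
    exact add_eq_zero'.mp h1
  · right
    intro ω hω
    have h1 := hz3 ω hω
    have h' : (u + x) + z ∈ WW X := by
      have e : (u + x) + z = u + z + x := by abel
      rw [e]; exact h
    rw [← tr_r hs hω h' (u + y + x)] at h1
    have h2 := (hA ω hω).symm y u
    have h3 := (hA ω hω).symm x u
    have h4 := hA ω hω u
    have h5 := hA ω hω x
    simp only [map_add, LinearMap.add_apply] at h1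
    have h6 := zadd (ω u x)
    have h7 : ω y u + ω y x = 0 := by
      linear_combination h1 - h4 - h5 - h6 - h3
    rw [h2] at h7
    exact add_eq_zero'.mp h7

theorem claim (hPL : S_PL) {A : Fam V} {X : DSub V} (hA : AltFam A) (hL : Linked A)
    (hs : supp A ≤ X) {x a : V} (hx : Rig A X x) (ha : a ∉ WW X) (hax : a + x ∉ WW X) :
    Rig A X a ∨ Rig A X (a + x) := by
  by_contra hc
  push Not at hc
  obtain ⟨h1, h2⟩ := hc
  have hK : ¬ ∀ ω ∈ A, ω x a = 0 := fun h => by
    rcases hx.2 a h with h | h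
    · exact ha h
    · exact hax h
  have e1 : ∃ y, (∀ ω ∈ A, ω a y = 0) ∧ y ∉ WW X ∧ y + a ∉ WW X := by
    by_contra h
    push Not at h
    refine h1 ⟨ha, fun y hy => ?_⟩
    by_contra h'
    push Not at h'
    exact h'.2 (h y hy h'.1)
  have e2 : ∃ u, (∀ ω ∈ A, ω (a + x) u = 0) ∧ u ∉ WW X ∧ u + (a + x) ∉ WW X := by
    by_contra h
    push Not at h
    refine h2 ⟨hax, fun y hy => ?_⟩
    by_contra h'
    push Not at h'
    exact h'.2 (h y hy h'.1)
  obtain ⟨y, hy, hy1, hy2⟩ := e1
  obtain ⟨u, hu, hu1, hu2⟩ := e2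
  have hya : ∀ ω ∈ A, ω a (y + a) = 0 := by
    intro ω hω
    rw [map_add, hy ω hω, hA ω hω a, add_zero]
  have s1 := step1 hPL hA hL hs hx hy hu
  have s2 := step1 hPL hA hL hs hx hya hu
  -- `B(u, a) = B(u, x)`
  have hua : ∀ ω ∈ A, ω u a = ω u x := by
    intro ω hω
    have h := hu ω hω
    rw [map_add, LinearMap.add_apply] at h
    rw [(hA ω hω).symm u a, (hA ω hω).symm u x]
    exact add_eq_zero'.mp h
  have s2' : (∀ ω ∈ A, ω u y = 0) ∨ (∀ ω ∈ A, ω u y = ω u x + ω y x + ω a x) := by
    rcases s2 with h | h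
    · left
      intro ω hω
      have h3 := h ω hω
      rw [map_add, hua ω hω] at h3
      linear_combination h3
    · right
      intro ω hω
      have h3 := h ω hω
      rw [map_add, map_add, LinearMap.add_apply, hua ω hω] at h3
      have h4 := zadd (ω u x)
      linear_combination h3 - h4
  rcases s1 with s1 | s1 <;> rcases s2' with s2 | s2
  · -- `B(u,x) = 0`
    have h3 : ∀ ω ∈ A, ω x u = 0 := fun ω hω => by
      rw [(hA ω hω).symm, ← s1 ω hω, s2 ω hω]
    rcases hx.2 u h3 with h | h
    · exact hu1 h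
    · apply hK
      intro ω hω
      have h4 := hu ω hω
      rw [tr_r hs hω h (a + x), map_add, LinearMap.add_apply, hA ω hω x, add_zero,
        (hA ω hω).symm] at h4
      exact h4
  · -- `B(y + a, x) = 0`
    have h3 : ∀ ω ∈ A, ω x (y + a) = 0 := fun ω hω => by
      have e1 := s1 ω hω
      have e2 := s2 ω hω
      rw [map_add, (hA ω hω).symm x y, (hA ω hω).symm x a]
      linear_combination e1 - e2
    rcases hx.2 _ h3 with h | h
    · exact hy2 h
    · apply hK
      intro ω hω
      have h4 := hy ω hω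
      have h' : y + (a + x) ∈ WW X := by rw [← add_assoc]; exact h
      rw [tr_r hs hω h' a, map_add, hA ω hω a, zero_add, (hA ω hω).symm] at h4
      exact h4
  · -- `B(y, x) = 0`
    have h3 : ∀ ω ∈ A, ω x y = 0 := fun ω hω => by
      rw [(hA ω hω).symm, ← s1 ω hω, s2 ω hω]
    rcases hx.2 _ h3 with h | h
    · exact hy1 h
    · apply hK
      intro ω hω
      have h4 := hy ω hω
      rw [tr_r hs hω h a, (hA ω hω).symm] at h4
      exact h4
  · -- `B(u + a, x) = 0`
    have h3 : ∀ ω ∈ A, ω x (u + a) = 0 := fun ω hω => by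
      have e1 := s1 ω hω
      have e2 := s2 ω hω
      rw [map_add, (hA ω hω).symm x u, (hA ω hω).symm x a]
      linear_combination e1 - e2
    rcases hx.2 _ h3 with h | h
    · apply hK
      intro ω hω
      have h4 := hu ω hω
      rw [tr_r hs hω h (a + x), map_add, LinearMap.add_apply, hA ω hω a, zero_add] at h4
      exact h4
    · exact hu2 (by rw [← add_assoc]; exact h)

/-- rigidity is invariant under `W` -/
theorem Rig.tr {A : Fam V} {X : DSub V} (hA : AltFam A) (hs : supp A ≤ X) {a c : V}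
    (hac : a + c ∈ WW X) (ha : Rig A X a) : Rig A X c := by
  refine ⟨fun h => ha.1 ?_, fun y hy => ?_⟩
  · have := (WW X).add_mem hac h
    rwa [add_cancel'] at this
  · rcases ha.2 y (fun ω hω => by
      have h1 := kill_l hA hs hω hac y
      rw [map_add, LinearMap.add_apply, hy ω hω, add_zero] at h1
      exact h1) with h | h
    · exact Or.inl h
    · right
      have := (WW X).add_mem h hac
      have e : y + a + (a + c) = y + c := by
        rw [← add_assoc, add_cancel']
      rwa [e] at this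

/-- the subgroup of non-rigid elements -/
def TT (hPL : S_PL) {A : Fam V} {X : DSub V} (hA : AltFam A) (hL : Linked A)
    (hs : supp A ≤ X) : Submodule (ZMod 2) V where
  carrier := {a | ¬ Rig A X a}
  zero_mem' := fun h => h.1 (WW X).zero_mem
  add_mem' := by
    intro a c ha hc hr
    by_cases h1 : a ∈ WW X
    · refine hc (hr.tr hA hs ?_)
      have e : a + c + c = a := add_cancel' a c
      rw [e]; exact h1
    by_cases h2 : c ∈ WW X
    · refine ha (hr.tr hA hs ?_)
      have e : a + c + a = c := by rw [add_comm a c, add_cancel']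
      rw [e]; exact h2
    have e : a + (a + c) = c := add_cancel_left' a c
    rcases claim hPL hA hL hs hr h1 (by rw [e]; exact h2) with h | h
    · exact ha h
    · rw [e] at h; exact hc h
  smul_mem' := by
    intro c a ha
    rcases z01 c with rfl | rfl
    · rw [zero_smul]
      exact fun h => h.1 (WW X).zero_mem
    · rw [one_smul]; exact ha

theorem mem_TT {hPL : S_PL} {A : Fam V} {X : DSub V} {hA : AltFam A} {hL : Linked A}
    {hs : supp A ≤ X} {a : V} : a ∈ TT hPL hA hL hs ↔ ¬ Rig A X a := Iff.rfl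

/-- `i_a A` is the annihilator of `K_a` -/
theorem mem_val {A : Fam V} {a : V} {f : Dl V} (h : ∀ y, (∀ ω ∈ A, ω a y = 0) → f y = 0) :
    ∃ ω ∈ A, ω a = f := by
  let I : DSub V := A.map (LinearMap.applyₗ a : Frm V →ₗ[ZMod 2] Dl V)
  have hf : f ∈ I := mem_of_coann fun b hb => h b fun ω hω => hb (ω a) ⟨ω, hω, rfl⟩
  obtain ⟨ω, hω, h2⟩ := hf
  exact ⟨ω, hω, h2⟩

end

theorem t_RIG1 (hPL : S_PL) : S_RIG1 := by
  intro V _ _ _ A X x hA hL hLU hs hX hx
  -- `x` is rigid
  have hxr : Rig A X x := by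
    obtain ⟨f0, hf0, hf1⟩ := hX
    refine ⟨fun h => by rw [mem_WW.mp h f0 hf0] at hf1; exact zero_ne_one hf1, fun y hy => ?_⟩
    have key : ∀ f ∈ X, f x = 0 → f y = 0 := by
      intro f hf hfx
      obtain ⟨ω, hω, rfl⟩ := hx f hf hfx
      exact hy ω hω
    rcases z01 (f0 y) with h | h
    · left
      rw [mem_WW]
      intro f hf
      rcases z01 (f x) with h1 | h1
      · exact key f hf h1
      · have := key (f + f0) (X.add_mem hf hf0) (by
          rw [LinearMap.add_apply, h1, hf1, zadd])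
        rw [LinearMap.add_apply, h, add_zero] at this
        exact this
    · right
      rw [mem_WW]
      intro f hf
      rw [map_add]
      rcases z01 (f x) with h1 | h1
      · rw [key f hf h1, h1, zero_add]
      · have := key (f + f0) (X.add_mem hf hf0) (by
          rw [LinearMap.add_apply, h1, hf1, zadd])
        rw [LinearMap.add_apply, h] at this
        rw [h1]; exact this
  let T := TT hPL hA hL hs
  have hxT : x ∉ T := fun h => (mem_TT.mp h) hxr
  obtain ⟨q, hq1, hq2⟩ : ∃ q : Dl V, q x = 1 ∧ ∀ t ∈ T, q t = 0 := by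
    obtain ⟨q, h1, h2⟩ := Submodule.exists_le_ker_of_notMem hxT
    exact ⟨q, z_ne h1, fun t ht => h2 ht⟩
  have hWT : ∀ w ∈ WW X, w ∈ T := fun w hw h => h.1 hw
  have hqX : q ∈ X := mem_of_coann fun b hb => hq2 b (hWT b (mem_WW.mpr hb))
  refine ⟨q, hqX, hq1, fun g hg => hLU _ (wd_alt q g) fun a => ?_⟩
  by_cases ha : Rig A X a
  · refine mem_val fun y hy => ?_
    have hz : wd q g a ∈ X := X.add_mem (X.smul_mem _ hg) (X.smul_mem _ hqX)
    rcases ha.2 y hy with h | h
    · exact mem_WW.mp h _ hz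
    · have h1 := mem_WW.mp h _ hz
      rw [map_add, wd_alt q g a, add_zero] at h1
      exact h1
  · have hqa : q a = 0 := hq2 a ha
    rw [wd_apply, hqa, zero_smul, zero_add]
    rcases z01 (g a) with h | h
    · exact ⟨0, A.zero_mem, by rw [h, zero_smul]; rfl⟩
    · rw [h, one_smul]
      refine mem_val fun y hy => ?_
      by_contra hqy
      have hyr : Rig A X y := by
        by_contra hn
        exact hqy (hq2 y hn)
      rcases hyr.2 a (fun ω hω => by rw [(hA ω hω).symm]; exact hy ω hω) with h1 | h1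
      · rw [mem_WW.mp h1 g hg] at h
        exact zero_ne_one h
      · exact ha (hyr.tr hA hs (by rw [add_comm]; exact h1))

theorem t_RIG (hLU : S_LU) (hRIG1 : S_RIG1) : S_RIG := by
  intro V _ _ _ A x hA hH hx0 hx hEl
  obtain ⟨q, -, hq1, hq⟩ := hRIG1 V A ⊤ x hA hH.linked (hLU V A hA hH) le_top
    (by obtain ⟨f, hf⟩ := exists_ne_one hx0; exact ⟨f, Submodule.mem_top, hf⟩)
    (fun f _ hf => hx f hf)
  have e : A = res A (ann x) ⊔ Submodule.map (wd q) (ann x) := by
    apply le_antisymm
    · intro ω hω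
      have h1 : ω x ∈ ann x := hA ω hω x
      have h2 : ω + wd q (ω x) ∈ res A (ann x) := by
        rw [mem_res_ann hA]
        refine ⟨A.add_mem hω (hq _ Submodule.mem_top), ?_⟩
        rw [LinearMap.add_apply, wd_apply, hq1, one_smul, mem_ann.mp h1, zero_smul, add_zero, vadd]
      have h4 : wd q (ω x) + wd q (ω x) = 0 := by
        ext a b
        exact zadd _
      have h3 : ω = (ω + wd q (ω x)) + wd q (ω x) := by
        rw [add_assoc, h4, add_zero]
      rw [h3]
      exact Submodule.add_mem_sup h2 ⟨_, h1, rfl⟩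
    · refine sup_le (res_le _ _) ?_
      rintro _ ⟨g, -, rfl⟩
      exact hq g Submodule.mem_top
  rw [e]
  exact El.cone _ q _ hEl (supp_res_le A (ann x)) (fun h => by
    rw [mem_ann, hq1] at h; exact one_ne_zero h)

end Pool.Agent.W688.ELT
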